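import Pool.Agent.Q177.BSG.E0a

set_option autoImplicit false

/-!
# `BS(1,k)`: the cut lemma
-/

namespace Pool.Agent.Q177.BSG

open Pool.Agent.Q281.BSG

theorem sum_levels' {k : ℕ} (hk : 2 ≤ k) (s : Finset ℕ) (lev : ℕ → ℤ) (H N : ℕ)
    (h0 : ∀ j ∈ s, 0 ≤ lev j ∧ lev j ≤ H)
    (hN : ∀ h : ℤ, (s.filter (fun j => lev j = h)).card ≤ N) :
    ∑ j ∈ s, (k : ℚ) ^ (lev j) ≤ 2 * N * (k : ℚ) ^ H := by
  have h1 : ∑ j ∈ s, (k : ℚ) ^ (lev j) =
      ∑ h ∈ Finset.range (H + 1), ∑ j ∈ s.filter (fun j => (lev j).toNat = h), (k : ℚ) ^ (lev j) := by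
    refine (Finset.sum_fiberwise_of_maps_to ?_ _).symm
    intro j hj
    have := h0 j hj
    rw [Finset.mem_range]
    omega
  rw [h1]
  calc ∑ h ∈ Finset.range (H + 1), ∑ j ∈ s.filter (fun j => (lev j).toNat = h),
        (k : ℚ) ^ (lev j) ≤ ∑ h ∈ Finset.range (H + 1), (N : ℚ) * (k : ℚ) ^ h := by
        refine Finset.sum_le_sum fun h _ => ?_
        have h2 : ∑ j ∈ s.filter (fun j => (lev j).toNat = h), (k : ℚ) ^ (lev j) =
            ∑ j ∈ s.filter (fun j => (lev j).toNat = h), (k : ℚ) ^ h := by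
          refine Finset.sum_congr rfl fun j hj => ?_
          rw [Finset.mem_filter] at hj
          have h3 := h0 j hj.1
          have h4 : lev j = (h : ℤ) := by omega
          rw [h4, zpow_natCast]
        rw [h2, Finset.sum_const, nsmul_eq_mul]
        refine mul_le_mul_of_nonneg_right ?_ (by positivity)
        have h5 : (s.filter (fun j => (lev j).toNat = h)).card ≤
            (s.filter (fun j => lev j = (h : ℤ))).card := by
          refine Finset.card_le_card ?_
          intro j hj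
          rw [Finset.mem_filter] at hj ⊢
          have h3 := h0 j hj.1
          exact ⟨hj.1, by omega⟩
        exact_mod_cast h5.trans (hN h)
    _ = N * ∑ h ∈ Finset.range (H + 1), (k : ℚ) ^ h := by rw [Finset.mul_sum]
    _ ≤ N * (2 * (k : ℚ) ^ H) := mul_le_mul_of_nonneg_left (geom_le hk H) (by positivity)
    _ = 2 * N * (k : ℚ) ^ H := by ring

/-- levels may be negative -/
theorem sum_levels_int {k : ℕ} (hk : 2 ≤ k) (s : Finset ℕ) (lev : ℕ → ℤ) (H : ℤ) (N : ℕ)
    (h0 : ∀ j ∈ s, lev j ≤ H)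
    (hN : ∀ h : ℤ, (s.filter (fun j => lev j = h)).card ≤ N) :
    ∑ j ∈ s, (k : ℚ) ^ (lev j) ≤ 2 * N * (k : ℚ) ^ H := by
  classical
  have hk0 : (k : ℚ) ≠ 0 := by positivity
  obtain ⟨L, hL⟩ : ∃ L : ℕ, (∀ j ∈ s, -(L : ℤ) ≤ lev j) ∧ -(L : ℤ) ≤ H := by
    refine ⟨(∑ j ∈ s, (lev j).natAbs) + H.natAbs, fun j hj => ?_, ?_⟩
    · have := Finset.single_le_sum (f := fun j => (lev j).natAbs) (fun _ _ => Nat.zero_le _) hj
      omega
    · omega
  obtain ⟨n, hn⟩ := Int.eq_ofNat_of_zero_le (by have := hL.2; omega : 0 ≤ H + L)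
  have h1 := sum_levels' hk s (fun j => lev j + L) n N
    (fun j hj => ⟨by have := hL.1 j hj; omega, by have := h0 j hj; show lev j + L ≤ (n : ℤ); omega⟩)
    (fun h => by
      have := hN (h - L)
      refine le_trans (Finset.card_le_card ?_) this
      intro j hj
      rw [Finset.mem_filter] at hj ⊢
      exact ⟨hj.1, by omega⟩)
  have h2 : ∑ j ∈ s, (k : ℚ) ^ (lev j) = (k : ℚ) ^ (-(L : ℤ)) * ∑ j ∈ s, (k : ℚ) ^ (lev j + L) := by
    rw [Finset.mul_sum]
    refine Finset.sum_congr rfl fun j _ => ?_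
    rw [← zpow_add₀ hk0]
    congr 1; ring
  rw [h2]
  have h3 : (k : ℚ) ^ H = (k : ℚ) ^ (-(L : ℤ)) * (k : ℚ) ^ n := by
    rw [← zpow_natCast, ← zpow_add₀ hk0]
    congr 1
    omega
  rw [h3]
  calc (k : ℚ) ^ (-(L : ℤ)) * ∑ j ∈ s, (k : ℚ) ^ (lev j + L)
      ≤ (k : ℚ) ^ (-(L : ℤ)) * (2 * N * (k : ℚ) ^ n) := mul_le_mul_of_nonneg_left h1 (by positivity)
    _ = 2 * N * ((k : ℚ) ^ (-(L : ℤ)) * (k : ℚ) ^ n) := by ring

section model

variable {k : ℕ} {G : Type} [Group G] {μ : Model k G} {S : Set G} {M : ℕ}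

theorem fin_zero (μ : Model k G) (hk : 2 ≤ k) (I R : ℕ) :
    {g : G | μ.m g = 0 ∧ Den k I (μ.x g) ∧ |μ.x g| ≤ R}.Finite := by
  have h1 : {g : G | μ.m g = 0 ∧ Den k I (μ.x g) ∧ |μ.x g| ≤ R} ⊆
      (fun n : ℤ => (μ.surj I n 0).choose) '' (Set.Icc (-(R * k ^ I : ℤ)) (R * k ^ I)) := by
    rintro g ⟨hm, ⟨n, hn⟩, hb⟩
    refine ⟨n, ?_, ?_⟩
    · rw [hn, abs_div, abs_of_nonneg (show (0 : ℚ) ≤ (k : ℚ) ^ I by positivity),
        div_le_iff₀ (by positivity)] at hb
      have h2 : |n| ≤ R * k ^ I := by exact_mod_cast hb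
      rw [abs_le] at h2
      exact h2
    · have h2 := (μ.surj I n 0).choose_spec
      exact μ.ext _ _ (by rw [h2.1, hn]) (by rw [h2.2, hm])
  exact ((Set.finite_Icc _ _).image _).subset h1

/-- separation of the low and of the high letters of a word -/
theorem separate (H : Hyp μ S M) : ∃ c : ℕ, ∀ (w : List G) (_ : IsWord S w) (p : ℕ) (i : ℕ),
    i ≤ w.length → ∃ A B : G, μ.m A = min (μ.m (w.take i).prod) p ∧
      μ.m B = max (μ.m (w.take i).prod) p - p ∧
      μ.x A = ∑ j ∈ (Finset.range i).filter (fun j => μ.m (w.take j).prod < p),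
        (k : ℚ) ^ μ.m (w.take j).prod * μ.x (w.getD j 1) ∧
      μ.x B = ∑ j ∈ (Finset.range i).filter (fun j => ¬ μ.m (w.take j).prod < p),
        (k : ℚ) ^ (μ.m (w.take j).prod - p) * μ.x (w.getD j 1) ∧
      wlen S A + wlen S B ≤ i + 2 * c * ((Finset.range i).filter
        (fun j => p - M ≤ μ.m (w.take j).prod ∧ μ.m (w.take j).prod < p + M)).card := by
  classical
  have hk := H.two_le
  have hk0 : (k : ℚ) ≠ 0 := by positivity
  obtain ⟨c, hc⟩ := exists_bound S (F := (fun e : ℤ => μ.el 0 e) '' (Set.Icc (-(M : ℤ)) M))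
    ((Set.finite_Icc _ _).image _)
  have hc' : ∀ e : ℤ, |e| ≤ M → wlen S (μ.el 0 e) ≤ c := fun e he => hc _ ⟨e, abs_le.1 he, rfl⟩
  refine ⟨c, fun w hw p i hi => ?_⟩
  induction i with
  | zero =>
    refine ⟨1, 1, ?_, ?_, by simp [μ.x_one], by simp [μ.x_one], by simp [wlen_one]⟩
    · simp [μ.m_one]
    · simp [μ.m_one]
  | succ i ih =>
    obtain ⟨A, B, hA, hB, hxA, hxB, hl⟩ := ih (by omega)
    have hi' : i < w.length := by omega
    have htake : (w.take (i + 1)).prod = (w.take i).prod * w.getD i 1 := by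
      rw [List.take_succ_eq_append_getElem hi', List.prod_append, List.getD_eq_getElem _ _ hi']
      simp
    set l := μ.m (w.take i).prod with hldef
    set s := w.getD i 1 with hs
    have hsw : IsWord S [s] := by
      intro t ht
      rw [List.mem_singleton] at ht
      rw [ht, hs, List.getD_eq_getElem _ _ hi']
      exact hw _ (List.getElem_mem hi')
    have hs1 : wlen S s ≤ 1 := by
      have := wlen_le hsw
      simpa using this
    have hl' : μ.m (w.take (i + 1)).prod = l + μ.m s := by rw [htake, μ.m_mul]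
    have hms : |μ.m s| ≤ M := H.letter (hsw s (by simp))
    rw [abs_le] at hms
    rw [hl', Finset.range_add_one]
    have hni : ∀ P : ℕ → Prop, ∀ [DecidablePred P], i ∉ (Finset.range i).filter P := by
      intro P _ h; simp at h
    have hmA : ∀ e, μ.m (A * s * μ.el 0 e) = μ.m A + μ.m s + e := by
      intro e; rw [μ.m_mul, μ.m_mul, μ.m_el]
    have hmB : ∀ e, μ.m (B * s * μ.el 0 e) = μ.m B + μ.m s + e := by
      intro e; rw [μ.m_mul, μ.m_mul, μ.m_el]
    have hcard : ∀ P : ℕ → Prop, ∀ [DecidablePred P], P i →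
        ((insert i (Finset.range i)).filter P).card = ((Finset.range i).filter P).card + 1 := by
      intro P _ hP
      rw [Finset.filter_insert, if_pos hP, Finset.card_insert_of_notMem (hni P)]
    have hcard' : ∀ P : ℕ → Prop, ∀ [DecidablePred P],
        ((Finset.range i).filter P).card ≤ ((insert i (Finset.range i)).filter P).card := by
      intro P _
      exact Finset.card_le_card (Finset.filter_subset_filter _ (Finset.subset_insert _ _))
    have hmono : 2 * c * ((Finset.range i).filter (fun j => (p : ℤ) - M ≤ μ.m (w.take j).prod ∧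
        μ.m (w.take j).prod < p + M)).card ≤
        2 * c * ((insert i (Finset.range i)).filter (fun j => (p : ℤ) - M ≤ μ.m (w.take j).prod ∧
        μ.m (w.take j).prod < p + M)).card := Nat.mul_le_mul_left _ (hcard' _)
    by_cases hlow : l < p
    · -- low letter
      rw [Finset.filter_insert, if_pos hlow, Finset.filter_insert, if_neg (by simpa using hlow),
        Finset.sum_insert (hni _)]
      have hAl : μ.m A = l := by rw [hA]; omega
      have hB0 : μ.m B = 0 := by rw [hB]; omega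
      by_cases hnext : l + μ.m s < p
      · refine ⟨A * s, B, ?_, ?_, ?_, hxB, ?_⟩
        · rw [μ.m_mul, hAl]; omega
        · rw [hB0]; omega
        · rw [μ.x_mul, hxA, hAl]; ring
        · have := wlen_mul_le H.gen A s
          omega
      · refine ⟨A * s * μ.el 0 (p - (l + μ.m s)), B * μ.el 0 (l + μ.m s - p), ?_, ?_, ?_, ?_, ?_⟩
        · rw [hmA, hAl]; omega
        · rw [μ.m_mul, μ.m_el, hB0]; omega
        · rw [μ.x_mul, μ.x_mul, μ.x_el, hxA, hAl]; push_cast; ring
        · rw [μ.x_mul, μ.x_el, hxB]; push_cast; ring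
        · have h1 := wlen_mul_le H.gen (A * s) (μ.el 0 (p - (l + μ.m s)))
          have h2 := wlen_mul_le H.gen A s
          have h3 := wlen_mul_le H.gen B (μ.el 0 (l + μ.m s - p))
          have h4 := hc' (p - (l + μ.m s)) (by rw [abs_le]; omega)
          have h5 := hc' (l + μ.m s - p) (by rw [abs_le]; omega)
          have hQi : (p : ℤ) - M ≤ μ.m (w.take i).prod ∧ μ.m (w.take i).prod < p + M := by omega
          rw [hcard (fun j => (p : ℤ) - M ≤ μ.m (w.take j).prod ∧ μ.m (w.take j).prod < p + M) hQi,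
            mul_add, mul_one]
          omega
    · -- high letter
      rw [Finset.filter_insert, if_neg hlow, Finset.filter_insert, if_pos hlow,
        Finset.sum_insert (hni _)]
      have hAp : μ.m A = p := by rw [hA]; omega
      have hBl : μ.m B = l - p := by rw [hB]; omega
      by_cases hnext : p ≤ l + μ.m s
      · refine ⟨A, B * s, ?_, ?_, hxA, ?_, ?_⟩
        · rw [hAp]; omega
        · rw [μ.m_mul, hBl]; omega
        · rw [μ.x_mul, hxB, hBl]; ring
        · have := wlen_mul_le H.gen B s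
          omega
      · refine ⟨A * μ.el 0 (l + μ.m s - p), B * s * μ.el 0 (p - (l + μ.m s)), ?_, ?_, ?_, ?_, ?_⟩
        · rw [μ.m_mul, μ.m_el, hAp]; omega
        · rw [hmB, hBl]; omega
        · rw [μ.x_mul, μ.x_el, hxA]; push_cast; ring
        · rw [μ.x_mul, μ.x_mul, μ.x_el, hxB, hBl]; push_cast; ring
        · have h1 := wlen_mul_le H.gen (B * s) (μ.el 0 (p - (l + μ.m s)))
          have h2 := wlen_mul_le H.gen B s
          have h3 := wlen_mul_le H.gen A (μ.el 0 (l + μ.m s - p))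
          have h4 := hc' (p - (l + μ.m s)) (by rw [abs_le]; omega)
          have h5 := hc' (l + μ.m s - p) (by rw [abs_le]; omega)
          have hQi : (p : ℤ) - M ≤ μ.m (w.take i).prod ∧ μ.m (w.take i).prod < p + M := by omega
          rw [hcard (fun j => (p : ℤ) - M ≤ μ.m (w.take j).prod ∧ μ.m (w.take j).prod < p + M) hQi,
            mul_add, mul_one]
          omega

/-- JOB C -/
theorem c (hB : S_B) : S_C := by
  classical
  intro k G _ μ S M H
  have hk := H.two_le
  have hk0 : (k : ℚ) ≠ 0 := by positivity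
  obtain ⟨N, hN⟩ := hB k G μ S M H
  obtain ⟨I, X, hX, hletter⟩ := H.exists_letter_bound
  obtain ⟨c, hc⟩ := separate H
  obtain ⟨C5, hC5⟩ := exists_bound S (fin_zero μ hk I (X * (2 * N) + 1))
  refine ⟨2 * c * (2 * M * N) + 2 * C5, fun p q u v g h hg hh hxg hxh hu => ?_⟩
  obtain ⟨w, hw, hwp, hwl⟩ := exists_geod H.gen (g * h)
  have hwg : w.length = wlen S w.prod := by rw [hwp, hwl]
  obtain ⟨A, B, hA, hBm, hxA, hxB, hl⟩ := hc w hw p w.length le_rfl
  rw [List.take_length, hwp, μ.m_mul, hg, hh] at hA hBm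
  have hA' : μ.m A = p := by rw [hA]; omega
  have hB' : μ.m B = q := by rw [hBm]; omega
  have hcards : ((Finset.range w.length).filter
        (fun j => (p : ℤ) - M ≤ μ.m (w.take j).prod ∧ μ.m (w.take j).prod < p + M)).card ≤ 2 * M * N := by
    have h1 : (Finset.range w.length).filter
        (fun j => (p : ℤ) - M ≤ μ.m (w.take j).prod ∧ μ.m (w.take j).prod < p + M) ⊆
        (Finset.Ico ((p : ℤ) - M) (p + M)).biUnion
          (fun e => (Finset.range w.length).filter (fun j => μ.m (w.take j).prod = e)) := by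
      intro j hj
      rw [Finset.mem_filter] at hj
      rw [Finset.mem_biUnion]
      exact ⟨_, Finset.mem_Ico.2 hj.2, Finset.mem_filter.2 ⟨hj.1, rfl⟩⟩
    refine (Finset.card_le_card h1).trans (Finset.card_biUnion_le.trans ?_)
    refine (Finset.sum_le_card_nsmul _ _ N fun e _ => hN w hw hwg e).trans ?_
    rw [Int.card_Ico, smul_eq_mul]
    refine Nat.mul_le_mul_right N ?_
    omega
  have hgetD : ∀ j, |μ.x (w.getD j 1)| ≤ X ∧ Den k I (μ.x (w.getD j 1)) := by
    intro j
    by_cases hj : j < w.length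
    · rw [List.getD_eq_getElem w 1 hj]
      exact hletter _ (hw _ (List.getElem_mem hj))
    · rw [List.getD_eq_default _ _ (by omega), μ.x_one]
      exact ⟨by simp, Den.zero k I⟩
  -- bound of the low part
  have hlowb : |μ.x A| ≤ ((X * (2 * N) : ℕ) : ℚ) * (k : ℚ) ^ p := by
    rw [hxA]
    set s := (Finset.range w.length).filter (fun j => μ.m (w.take j).prod < p) with hs
    have h1 : ∑ j ∈ s, (k : ℚ) ^ μ.m (w.take j).prod ≤ 2 * N * (k : ℚ) ^ (p : ℤ) := by
      refine sum_levels_int hk s (fun j => μ.m (w.take j).prod) p N (fun j hj => ?_) (fun e => ?_)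
      · rw [hs, Finset.mem_filter] at hj
        exact hj.2.le
      · refine le_trans (Finset.card_le_card ?_) (hN w hw hwg e)
        exact Finset.filter_subset_filter _ (Finset.filter_subset _ _)
    calc |∑ j ∈ s, (k : ℚ) ^ μ.m (w.take j).prod * μ.x (w.getD j 1)|
        ≤ ∑ j ∈ s, |(k : ℚ) ^ μ.m (w.take j).prod * μ.x (w.getD j 1)| := Finset.abs_sum_le_sum_abs _ _
      _ ≤ ∑ j ∈ s, (X : ℚ) * (k : ℚ) ^ μ.m (w.take j).prod := by
          refine Finset.sum_le_sum fun j _ => ?_
          rw [abs_mul, abs_of_nonneg (show (0 : ℚ) ≤ (k : ℚ) ^ μ.m (w.take j).prod by positivity), mul_comm]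
          exact mul_le_mul_of_nonneg_right (hgetD j).1 (by positivity)
      _ = X * ∑ j ∈ s, (k : ℚ) ^ μ.m (w.take j).prod := by rw [Finset.mul_sum]
      _ ≤ X * (2 * N * (k : ℚ) ^ (p : ℤ)) := mul_le_mul_of_nonneg_left h1 (by positivity)
      _ = ((X * (2 * N) : ℕ) : ℚ) * (k : ℚ) ^ p := by push_cast; rw [zpow_natCast]; ring
  have hBden : Den k I (μ.x B) := by
    rw [hxB]
    refine Den.sum _ _ fun j hj => (hgetD j).2.mul_zpow ?_
    rw [Finset.mem_filter] at hj
    omega
  -- the sum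
  have hAB : μ.x A + (k : ℚ) ^ p * μ.x B = u + (k : ℚ) ^ p * v := by
    have h1 : μ.x w.prod = u + (k : ℚ) ^ p * v := by
      rw [hwp, μ.x_mul, hg, hxg, hxh, zpow_natCast]
    rw [← h1, μ.x_prod hk, hxA, hxB, Finset.mul_sum,
      ← Finset.sum_filter_add_sum_filter_not (Finset.range w.length) (fun j => μ.m (w.take j).prod < p)]
    congr 1
    refine Finset.sum_congr rfl fun j _ => ?_
    rw [← mul_assoc, ← zpow_natCast, ← zpow_add₀ hk0]
    congr 2
    ring
  obtain ⟨n0, hn0⟩ := hBden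
  obtain ⟨e, hxe, hme⟩ := μ.surj I (v * k ^ I - n0) 0
  have hxe' : μ.x e = v - μ.x B := by
    rw [hxe, hn0]; push_cast; field_simp
  have hkp : (0 : ℚ) < (k : ℚ) ^ p := by positivity
  have hke : (k : ℚ) ^ p * μ.x e = μ.x A - u := by rw [hxe']; linarith
  have heb : |μ.x e| ≤ ((X * (2 * N) + 1 : ℕ) : ℚ) := by
    have hu' : |(u : ℚ)| ≤ (k : ℚ) ^ p := by exact_mod_cast hu
    have h1 : (k : ℚ) ^ p * |μ.x e| ≤ (k : ℚ) ^ p * ((X * (2 * N) + 1 : ℕ) : ℚ) := by
      rw [← abs_of_pos hkp, ← abs_mul, hke, abs_of_pos hkp]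
      refine (abs_sub _ _).trans ?_
      push_cast at hlowb ⊢
      linarith
    exact le_of_mul_le_mul_left h1 hkp
  have heC : wlen S e ≤ C5 := hC5 e ⟨hme, ⟨_, hxe⟩, heb⟩
  have hgA : g = A * e⁻¹ := by
    refine μ.ext _ _ ?_ ?_
    · rw [μ.x_mul, μ.x_inv, hme, hA', neg_zero, zpow_zero, one_mul, zpow_natCast, mul_neg, hke, hxg]
      ring
    · rw [μ.m_mul, μ.m_inv, hme, hA', hg]; ring
  have hhB : h = e * B := by
    refine μ.ext _ _ ?_ ?_
    · rw [μ.x_mul, hme, hxe', hxh, zpow_zero]; ring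
    · rw [μ.m_mul, hme, hB', hh]; ring
  have h1 := wlen_mul_le H.gen A e⁻¹
  have h2 := wlen_mul_le H.gen e B
  rw [wlen_inv H.gen, ← hgA] at h1
  rw [← hhB] at h2
  have h3 : 2 * c * ((Finset.range w.length).filter
        (fun j => (p : ℤ) - M ≤ μ.m (w.take j).prod ∧ μ.m (w.take j).prod < p + M)).card ≤
        2 * c * (2 * M * N) := Nat.mul_le_mul_left _ hcards
  omega

end model

end Pool.Agent.Q177.BSG
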