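import Pool.Agent.Q177.BSG.E0a

set_option autoImplicit false

/-!
# `BS(1,k)`: the classes of exponent `0`
-/

namespace Pool.Agent.Q177.BSG

open Pool.Agent.Q281.BSG ENNReal

section model

variable {k : ℕ} {G : Type} [Group G] {μ : Model k G} {S : Set G} {M : ℕ}

/-- the elements `(y,h)` with `y ∈ k^{-I}ℤ`, `|y| ≤ R k^h` -/
def AA (μ : Model k G) (I R h : ℕ) : Set G :=
  {g | μ.m g = h ∧ |μ.x g| ≤ R * (k : ℚ) ^ h ∧ Den k I (μ.x g)}

/-- decomposition of `(y,h)` -/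
theorem split (H : Hyp μ S M) (I R : ℕ) : ∃ B : ℕ, ∀ h : ℕ, ∃ f : AA μ I R h →
    Fin (k ^ I) × Fin (2 * R + 5) × Fin (k ^ h), Function.Injective f ∧
      ∀ g : AA μ I R h, LL μ S h (f g).2.2.val ≤ wlen S g.1 + B := by
  classical
  have hk := H.two_le
  have hk0 : (k : ℚ) ≠ 0 := by positivity
  have hkpos : (0 : ℚ) < k := by positivity
  -- the corrections
  have hfin : {g : G | ∃ (a : ℕ) (e : ℤ), a < k ^ I ∧ |e| ≤ R + 2 ∧ ((μ.x g = a / (k : ℚ) ^ I ∧ μ.m g = 0) ∨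
      (μ.x g = e ∧ μ.m g = 0))}.Finite := by
    have h1 : {g : G | ∃ (a : ℕ) (e : ℤ), a < k ^ I ∧ |e| ≤ R + 2 ∧
        ((μ.x g = a / (k : ℚ) ^ I ∧ μ.m g = 0) ∨ (μ.x g = e ∧ μ.m g = 0))} ⊆
        ((fun a : ℕ => (μ.surj I a 0).choose) '' (Set.Iio (k ^ I))) ∪
        ((fun e : ℤ => μ.el e 0) '' (Set.Icc (-(R + 2 : ℤ)) (R + 2))) := by
      rintro g ⟨a, e, ha, he, h | h⟩
      · left
        refine ⟨a, ha, ?_⟩
        have h2 := (μ.surj I a 0).choose_spec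
        refine μ.ext _ _ ?_ ?_
        · rw [h2.1, h.1]; simp
        · rw [h2.2, h.2]
      · right
        refine ⟨e, by rw [abs_le] at he; exact he, ?_⟩
        exact (μ.eq_el h.1 h.2).symm
    exact (((Set.finite_Iio _).image _).union ((Set.finite_Icc _ _).image _)).subset h1
  obtain ⟨B, hB⟩ := exists_bound S hfin
  refine ⟨B + B, fun h => ?_⟩
  -- for each g the data
  have hdata : ∀ g : AA μ I R h, ∃ (a : ℕ) (e : ℤ) (u : ℕ), a < k ^ I ∧ |e| ≤ R + 2 ∧ u < k ^ h ∧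
      μ.x g.1 = a / (k : ℚ) ^ I + u + (k : ℚ) ^ h * e := by
    rintro ⟨g, hm, hb, n, hn⟩
    have hkI : (0 : ℤ) < (k : ℤ) ^ I := by positivity
    have hkh : (0 : ℤ) < (k : ℤ) ^ h := by positivity
    have e1 := Int.emod_add_mul_ediv n ((k : ℤ) ^ I)
    have e2 := Int.emod_add_mul_ediv (n / (k : ℤ) ^ I) ((k : ℤ) ^ h)
    have n1 := Int.emod_nonneg n hkI.ne'
    have l1 := Int.emod_lt_of_pos n hkI
    have n2 := Int.emod_nonneg (n / (k : ℤ) ^ I) hkh.ne'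
    have l2 := Int.emod_lt_of_pos (n / (k : ℤ) ^ I) hkh
    obtain ⟨a, ha⟩ := Int.eq_ofNat_of_zero_le n1
    obtain ⟨u, hu⟩ := Int.eq_ofNat_of_zero_le n2
    set b := n / (k : ℤ) ^ I with hbdef
    set e := b / (k : ℤ) ^ h with hedef
    have hxe : μ.x g = a / (k : ℚ) ^ I + u + (k : ℚ) ^ h * e := by
      rw [hn]
      have e3 : n = a + (k : ℤ) ^ I * (u + (k : ℤ) ^ h * e) := by
        rw [← Int.ofNat_eq_natCast u, ← Int.ofNat_eq_natCast a]
        simp only [Int.ofNat_eq_natCast]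
        rw [← hu, e2, ← ha, e1]
      have : (n : ℚ) = a + (k : ℚ) ^ I * (u + (k : ℚ) ^ h * e) := by exact_mod_cast e3
      rw [this]
      field_simp
      ring
    refine ⟨a, e, u, ?_, ?_, ?_, hxe⟩
    · have : ((a : ℕ) : ℤ) < ((k ^ I : ℕ) : ℤ) := by rw [← ha]; push_cast; exact l1
      exact_mod_cast this
    · have ha1 : (a : ℚ) / (k : ℚ) ^ I < 1 := by
        rw [div_lt_one (by positivity)]
        have : ((a : ℕ) : ℤ) < ((k ^ I : ℕ) : ℤ) := by rw [← ha]; push_cast; exact l1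
        exact_mod_cast this
      have ha0 : 0 ≤ (a : ℚ) / (k : ℚ) ^ I := by positivity
      have hu1 : (u : ℚ) < (k : ℚ) ^ h := by
        have : ((u : ℕ) : ℤ) < ((k ^ h : ℕ) : ℤ) := by rw [← hu]; push_cast; exact l2
        exact_mod_cast this
      have hu0 : (0 : ℚ) ≤ u := by positivity
      have hb' := hb
      rw [hxe, abs_le] at hb'
      have hp1 : (1 : ℚ) ≤ (k : ℚ) ^ h := by
        have : (1 : ℚ) ≤ k := by exact_mod_cast (by omega : 1 ≤ k)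
        exact one_le_pow₀ this
      have hu2 : (k : ℚ) ^ h * e ≤ (k : ℚ) ^ h * (R + 2 : ℚ) := by nlinarith
      have hl2 : (k : ℚ) ^ h * (-(R + 2) : ℚ) ≤ (k : ℚ) ^ h * e := by nlinarith
      have hpos : (0 : ℚ) < (k : ℚ) ^ h := by positivity
      have hu3 := le_of_mul_le_mul_left hu2 hpos
      have hl3 := le_of_mul_le_mul_left hl2 hpos
      rw [abs_le]
      constructor
      · exact_mod_cast hl3
      · exact_mod_cast hu3
    · have : ((u : ℕ) : ℤ) < ((k ^ h : ℕ) : ℤ) := by rw [← hu]; push_cast; exact l2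
      exact_mod_cast this
  choose a e u ha he hu hx using hdata
  have hei : ∀ g, 0 ≤ e g + R + 2 ∧ e g + R + 2 < 2 * R + 5 := by
    intro g
    have := he g
    rw [abs_le] at this
    omega
  refine ⟨fun g => (⟨a g, ha g⟩, ⟨(e g + R + 2).toNat, by have := hei g; omega⟩, ⟨u g, hu g⟩), ?_, ?_⟩
  · intro g g' hgg
    simp only [Prod.mk.injEq, Fin.mk.injEq] at hgg
    obtain ⟨h1, h2, h3⟩ := hgg
    have h4 : e g = e g' := by have := hei g; have := hei g'; omega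
    apply Subtype.ext
    refine μ.ext _ _ ?_ ?_
    · rw [hx g, hx g', h1, h3, h4]
    · rw [g.2.1, g'.2.1]
  · intro g
    show LL μ S h (u g) ≤ wlen S g.1 + (B + B)
    obtain ⟨c0, hc0, hc0m⟩ := μ.surj I (a g) 0
    have hc0' : μ.x c0 = (a g : ℚ) / (k : ℚ) ^ I := by rw [hc0]; simp
    have hc0B := hB c0 ⟨a g, e g, ha g, he g, Or.inl ⟨hc0', hc0m⟩⟩
    have hc1B := hB (μ.el (e g) 0) ⟨a g, e g, ha g, he g, Or.inr ⟨μ.x_el _ _, μ.m_el _ _⟩⟩
    have hg : g.1 = c0 * μ.el (u g) h * μ.el (e g) 0 := by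
      refine μ.ext _ _ ?_ ?_
      · rw [μ.x_mul, μ.x_mul, μ.m_mul, hc0', hc0m, μ.x_el, μ.x_el, μ.m_el, hx g]
        simp
      · rw [μ.m_mul, μ.m_mul, hc0m, μ.m_el, μ.m_el, g.2.1]; simp
    have hu' : μ.el (u g) h = c0⁻¹ * g.1 * (μ.el (e g) 0)⁻¹ := by rw [hg]; group
    have h1 := wlen_mul_le H.gen (c0⁻¹ * g.1) (μ.el (e g) 0)⁻¹
    have h2 := wlen_mul_le H.gen c0⁻¹ g.1
    rw [wlen_inv H.gen] at h1 h2
    unfold LL
    rw [hu']
    omega

theorem sumAA (H : Hyp μ S M) (I R : ℕ) {z : ℝ} (hz : 0 < z) (hz1 : z < 1)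
    (hN : ∀ m, NN k (LL μ S) m z ≤ 1) :
    ∃ D : ℝ≥0∞, D ≠ ⊤ ∧ ∀ h : ℕ, ∑' g : AA μ I R h, ENNReal.ofReal z ^ wlen S g.1 ≤ D := by
  classical
  obtain ⟨B, hB⟩ := split (S := S) H I R
  set ζ := ENNReal.ofReal z with hζ
  have hζ0 : ζ ≠ 0 := by rw [hζ]; simpa using hz
  have hζt : ζ ≠ ⊤ := by rw [hζ]; exact ENNReal.ofReal_ne_top
  have hζ1 : ζ ≤ 1 := by rw [hζ, ENNReal.ofReal_le_one]; exact hz1.le
  refine ⟨((k ^ I : ℕ) : ℝ≥0∞) * ((2 * R + 5 : ℕ) : ℝ≥0∞) / ζ ^ B, ?_, fun h => ?_⟩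
  · refine (ENNReal.div_lt_top ?_ (pow_ne_zero _ hζ0)).ne
    exact ENNReal.mul_ne_top (ENNReal.natCast_ne_top _) (ENNReal.natCast_ne_top _)
  · obtain ⟨f, hf, hfL⟩ := hB h
    rw [ENNReal.le_div_iff_mul_le (Or.inl (pow_ne_zero _ hζ0)) (Or.inl (ENNReal.pow_ne_top hζt))]
    rw [← ENNReal.tsum_mul_right]
    calc ∑' g : AA μ I R h, ζ ^ wlen S g.1 * ζ ^ B
        ≤ ∑' g : AA μ I R h, ζ ^ LL μ S h (f g).2.2.val := by
          refine ENNReal.tsum_le_tsum fun g => ?_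
          rw [← pow_add]
          exact pow_le_pow_right_of_le_one' hζ1 (hfL g)
      _ ≤ ∑' t : Fin (k ^ I) × Fin (2 * R + 5) × Fin (k ^ h), ζ ^ LL μ S h t.2.2.val :=
          ENNReal.tsum_comp_le_tsum_of_injective hf _
      _ = ((k ^ I : ℕ) : ℝ≥0∞) * (((2 * R + 5 : ℕ) : ℝ≥0∞) * ∑ u : Fin (k ^ h), ζ ^ LL μ S h u.val) := by
          rw [tsum_fintype, Fintype.sum_prod_type]
          simp only [Finset.sum_const, Finset.card_univ, Fintype.card_fin, nsmul_eq_mul]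
          rw [Fintype.sum_prod_type]
          simp only [Finset.sum_const, Finset.card_univ, Fintype.card_fin, nsmul_eq_mul]
      _ ≤ ((k ^ I : ℕ) : ℝ≥0∞) * (((2 * R + 5 : ℕ) : ℝ≥0∞) * 1) := by
          gcongr
          have h1 : ∑ u : Fin (k ^ h), ζ ^ LL μ S h u.val = ENNReal.ofReal (NN k (LL μ S) h z) := by
            unfold NN
            rw [ENNReal.ofReal_sum_of_nonneg (fun i _ => by positivity),
              ← Fin.sum_univ_eq_sum_range (fun u => ENNReal.ofReal (z ^ LL μ S h u))]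
            refine Finset.sum_congr rfl fun u _ => ?_
            rw [hζ, ENNReal.ofReal_pow hz.le]
          rw [h1, ENNReal.ofReal_le_one]
          exact hN h
      _ = ((k ^ I : ℕ) : ℝ≥0∞) * ((2 * R + 5 : ℕ) : ℝ≥0∞) := by rw [mul_one]

/-- JOB E0 -/
theorem e0 (hB : S_B) : S_E0 := by
  classical
  intro k G _ μ S M H z hz hz1 hN
  have hk := H.two_le
  have hk0 : (k : ℚ) ≠ 0 := by positivity
  obtain ⟨I, R, hdec⟩ := decomp hB H
  obtain ⟨C, hC⟩ := digits H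
  obtain ⟨D, hD, hDs⟩ := sumAA H I (R + 1) hz hz1 hN
  set ζ := ENNReal.ofReal z with hζ
  have hζ0 : ζ ≠ 0 := by rw [hζ]; simpa using hz
  have hζt : ζ ≠ ⊤ := by rw [hζ]; exact ENNReal.ofReal_ne_top
  have hζ1 : ζ ≤ 1 := by rw [hζ, ENNReal.ofReal_le_one]; exact hz1.le
  choose! h g1 g2 hm1 hm2 hmk hlen hb1 hb2 hd1 hd2 using hdec
  -- `J ↦ c_J`
  have hcJ : ∀ (n : ℕ) (J : Finset ℕ), J ⊆ Finset.range n →
      (0 : ℚ) ≤ ∑ i ∈ J, (k : ℚ) ^ i ∧ ∑ i ∈ J, (k : ℚ) ^ i ≤ (k : ℚ) ^ n := by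
    intro n J hJ
    refine ⟨Finset.sum_nonneg fun i _ => by positivity, ?_⟩
    refine (Finset.sum_le_sum_of_subset_of_nonneg hJ fun _ _ _ => by positivity).trans ?_
    have h2 : (2 : ℚ) ≤ k := by exact_mod_cast hk
    clear hJ J
    induction n with
    | zero => simp
    | succ n ih =>
      rw [Finset.sum_range_succ, pow_succ]
      nlinarith [show (0 : ℚ) < (k : ℚ) ^ n by positivity]
  choose! d hdm hdx hdl using hC
  -- the map
  let Kt := {κ : ConjClasses G // μ.cm κ = 0}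
  have key : ∀ n : ℕ, (∑' κ : {κ : Kt // h κ.1 = n}, ζ ^ clen S κ.1.1) * (1 + ζ ^ (2 * C)) ^ n ≤ D * D := by
    intro n
    have hmemA : ∀ (κ : {κ : Kt // h κ.1 = n}) (J : (Finset.range n).powerset),
        d n (g1 κ.1.1) J.1 ∈ AA μ I (R + 1) n ∧ d n (g2 κ.1.1) J.1 ∈ AA μ I (R + 1) n := by
      intro κ J
      have hJ : J.1 ⊆ Finset.range n := Finset.mem_powerset.1 J.2
      have hκ := κ.2
      have e1 : μ.m (g1 κ.1.1) = n := by rw [hm1 _ κ.1.2, hκ]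
      have e2 : μ.m (g2 κ.1.1) = n := by rw [hm2 _ κ.1.2, hκ]
      have hc := hcJ n J.1 hJ
      have hdc : Den k I (∑ i ∈ J.1, (k : ℚ) ^ i) := by
        refine Den.sum _ _ fun i _ => ?_
        have := Den.int (I := I) hk ((k : ℤ) ^ i)
        push_cast at this
        exact this
      have habs : ∀ q : ℚ, |q| ≤ R * (k : ℚ) ^ n →
          |q + ∑ i ∈ J.1, (k : ℚ) ^ i| ≤ ((R + 1 : ℕ) : ℚ) * (k : ℚ) ^ n := by
        intro q hq
        refine (abs_add_le _ _).trans ?_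
        rw [abs_of_nonneg hc.1]
        push_cast
        linarith [hc.2]
      have hb1' := hb1 _ κ.1.2
      have hb2' := hb2 _ κ.1.2
      rw [hκ] at hb1' hb2'
      refine ⟨⟨hdm n _ J.1 e1 hJ, ?_, ?_⟩, ⟨hdm n _ J.1 e2 hJ, ?_, ?_⟩⟩
      · rw [hdx n _ J.1 e1 hJ]; exact habs _ hb1'
      · rw [hdx n _ J.1 e1 hJ]; exact (hd1 _ κ.1.2).add hdc
      · rw [hdx n _ J.1 e2 hJ]; exact habs _ hb2'
      · rw [hdx n _ J.1 e2 hJ]; exact (hd2 _ κ.1.2).add hdc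
    let F : {κ : Kt // h κ.1 = n} × (Finset.range n).powerset → AA μ I (R + 1) n × AA μ I (R + 1) n :=
      fun p => (⟨_, (hmemA p.1 p.2).1⟩, ⟨_, (hmemA p.1 p.2).2⟩)
    have hF : Function.Injective F := by
      rintro ⟨κ, J⟩ ⟨κ', J'⟩ hh
      simp only [F, Prod.mk.injEq, Subtype.mk.injEq] at hh
      obtain ⟨hh1, hh2⟩ := hh
      have hJ : J.1 ⊆ Finset.range n := Finset.mem_powerset.1 J.2
      have hJ' : J'.1 ⊆ Finset.range n := Finset.mem_powerset.1 J'.2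
      have e1 : μ.m (g1 κ.1.1) = n := by rw [hm1 _ κ.1.2, κ.2]
      have e2 : μ.m (g2 κ.1.1) = n := by rw [hm2 _ κ.1.2, κ.2]
      have e1' : μ.m (g1 κ'.1.1) = n := by rw [hm1 _ κ'.1.2, κ'.2]
      have e2' : μ.m (g2 κ'.1.1) = n := by rw [hm2 _ κ'.1.2, κ'.2]
      have x1 : μ.x (g1 κ.1.1) + ∑ i ∈ J.1, (k : ℚ) ^ i = μ.x (g1 κ'.1.1) + ∑ i ∈ J'.1, (k : ℚ) ^ i := by
        rw [← hdx n _ J.1 e1 hJ, hh1, hdx n _ J'.1 e1' hJ']
      have x2 : μ.x (g2 κ.1.1) + ∑ i ∈ J.1, (k : ℚ) ^ i = μ.x (g2 κ'.1.1) + ∑ i ∈ J'.1, (k : ℚ) ^ i := by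
        rw [← hdx n _ J.1 e2 hJ, hh2, hdx n _ J'.1 e2' hJ']
      have hdiff : ∀ a b : G, μ.m a = n → μ.m b = n → μ.x (a * b⁻¹) = μ.x a - μ.x b := by
        intro a b ha hb
        rw [μ.x_mul, μ.x_inv, ha, hb, mul_neg, ← mul_assoc, ← zpow_add₀ hk0]
        simp
        ring
      have hge : g1 κ.1.1 * (g2 κ.1.1)⁻¹ = g1 κ'.1.1 * (g2 κ'.1.1)⁻¹ := by
        refine μ.ext _ _ ?_ ?_
        · rw [hdiff _ _ e1 e2, hdiff _ _ e1' e2']; linarith
        · rw [μ.m_mul, μ.m_mul, μ.m_inv, μ.m_inv, e1, e2, e1', e2']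
      have hκκ : κ.1.1 = κ'.1.1 := by rw [← hmk _ κ.1.2, hge, hmk _ κ'.1.2]
      have hκ2 : κ = κ' := Subtype.ext (Subtype.ext hκκ)
      subst hκ2
      have hJJ : ∑ i ∈ J.1, (k : ℚ) ^ i = ∑ i ∈ J'.1, (k : ℚ) ^ i := by linarith
      have hJJn : ∑ i ∈ J.1, k ^ i = ∑ i ∈ J'.1, k ^ i := by exact_mod_cast hJJ
      have := Finset.geomSum_injective hk hJJn
      exact Prod.ext rfl (Subtype.ext this)
    calc (∑' κ : {κ : Kt // h κ.1 = n}, ζ ^ clen S κ.1.1) * (1 + ζ ^ (2 * C)) ^ n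
        = ∑' κ : {κ : Kt // h κ.1 = n}, ∑' J : (Finset.range n).powerset,
            ζ ^ clen S κ.1.1 * ζ ^ (2 * C * J.1.card) := by
          rw [← ENNReal.tsum_mul_right]
          refine tsum_congr fun κ => ?_
          rw [ENNReal.tsum_mul_left]
          congr 1
          rw [tsum_fintype, Finset.univ_eq_attach,
            Finset.sum_attach (Finset.range n).powerset (fun J => ζ ^ (2 * C * J.card))]
          have := Finset.sum_pow_mul_eq_add_pow (ζ ^ (2 * C)) 1 (Finset.range n)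
          simp only [one_pow, mul_one, Finset.card_range] at this
          rw [add_comm, ← this]
          refine Finset.sum_congr rfl fun J _ => ?_
          rw [← pow_mul]
      _ = ∑' p : {κ : Kt // h κ.1 = n} × (Finset.range n).powerset,
            ζ ^ clen S p.1.1.1 * ζ ^ (2 * C * p.2.1.card) := by
          exact (ENNReal.tsum_prod (f := fun (κ : {κ : Kt // h κ.1 = n}) (J : (Finset.range n).powerset) =>
            ζ ^ clen S κ.1.1 * ζ ^ (2 * C * J.1.card))).symm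
      _ ≤ ∑' p : {κ : Kt // h κ.1 = n} × (Finset.range n).powerset,
            ζ ^ wlen S (F p).1.1 * ζ ^ wlen S (F p).2.1 := by
          refine ENNReal.tsum_le_tsum fun p => ?_
          rw [← pow_add, ← pow_add]
          refine pow_le_pow_right_of_le_one' hζ1 ?_
          obtain ⟨κ, J⟩ := p
          have hJ : J.1 ⊆ Finset.range n := Finset.mem_powerset.1 J.2
          have e1 : μ.m (g1 κ.1.1) = n := by rw [hm1 _ κ.1.2, κ.2]
          have e2 : μ.m (g2 κ.1.1) = n := by rw [hm2 _ κ.1.2, κ.2]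
          have l1 := hdl n _ J.1 e1 hJ
          have l2 := hdl n _ J.1 e2 hJ
          have l3 := hlen _ κ.1.2
          show wlen S (d n (g1 κ.1.1) J.1) + wlen S (d n (g2 κ.1.1) J.1) ≤
            clen S κ.1.1 + 2 * C * J.1.card
          nlinarith
      _ ≤ ∑' q : AA μ I (R + 1) n × AA μ I (R + 1) n, ζ ^ wlen S q.1.1 * ζ ^ wlen S q.2.1 :=
          ENNReal.tsum_comp_le_tsum_of_injective hF
            (fun q : AA μ I (R + 1) n × AA μ I (R + 1) n => ζ ^ wlen S q.1.1 * ζ ^ wlen S q.2.1)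
      _ = (∑' a : AA μ I (R + 1) n, ζ ^ wlen S a.1) * ∑' b : AA μ I (R + 1) n, ζ ^ wlen S b.1 := by
          rw [← ENNReal.tsum_mul_right]
          refine (ENNReal.tsum_prod (f := fun (a : AA μ I (R + 1) n) (b : AA μ I (R + 1) n) =>
            ζ ^ wlen S a.1 * ζ ^ wlen S b.1)).trans ?_
          refine tsum_congr fun a => ?_
          rw [ENNReal.tsum_mul_left]
      _ ≤ D * D := mul_le_mul' (hDs n) (hDs n)
  -- sum over the levels
  have hq0 : (1 + ζ ^ (2 * C)) ≠ 0 := by positivity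
  have hqt : (1 + ζ ^ (2 * C)) ≠ ⊤ := by
    simp [ENNReal.add_ne_top, hζt]
  have hq1 : (1 + ζ ^ (2 * C))⁻¹ < 1 := by
    rw [ENNReal.inv_lt_one]
    exact ENNReal.lt_add_right ENNReal.one_ne_top (pow_ne_zero _ hζ0)
  have htot : EE μ S 0 z = ∑' n : ℕ, ∑' κ : {κ : Kt // h κ.1 = n}, ζ ^ clen S κ.1.1 := by
    unfold EE
    rw [← (Equiv.sigmaFiberEquiv (fun κ : Kt => h κ.1)).tsum_eq, ENNReal.tsum_sigma']
    rfl
  have hle : EE μ S 0 z ≤ (D * D) * (1 - (1 + ζ ^ (2 * C))⁻¹)⁻¹ := by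
    rw [htot, ← ENNReal.tsum_geometric, ← ENNReal.tsum_mul_left]
    refine ENNReal.tsum_le_tsum fun n => ?_
    rw [← ENNReal.inv_pow, ← div_eq_mul_inv]
    rw [ENNReal.le_div_iff_mul_le (Or.inl (pow_ne_zero _ hq0)) (Or.inl (ENNReal.pow_ne_top hqt))]
    exact key n
  refine ne_top_of_le_ne_top ?_ hle
  refine ENNReal.mul_ne_top (ENNReal.mul_ne_top hD hD) ?_
  rw [ENNReal.inv_ne_top]
  exact (tsub_pos_of_lt hq1).ne'

end model

end Pool.Agent.Q177.BSG
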