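import Pool.Agent.Q281.BSG.Stm

set_option autoImplicit false

/-!
# `BS(1,k)`: words with bounded visits, digit insertion
-/

namespace Pool.Agent.Q177.BSG

open Pool.Agent.Q281.BSG

theorem geom_le {k : ℕ} (hk : 2 ≤ k) (H : ℕ) :
    ∑ h ∈ Finset.range (H + 1), (k : ℚ) ^ h ≤ 2 * (k : ℚ) ^ H := by
  have hk' : (2 : ℚ) ≤ k := by exact_mod_cast hk
  induction H with
  | zero => simp
  | succ n ih =>
    rw [Finset.sum_range_succ]
    have h1 : (2 : ℚ) * (k : ℚ) ^ n ≤ (k : ℚ) ^ (n + 1) := by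
      rw [pow_succ, mul_comm]
      exact mul_le_mul_of_nonneg_left hk' (by positivity)
    linarith

theorem sum_levels {k : ℕ} (hk : 2 ≤ k) (len : ℕ) (lev : ℕ → ℤ) (H N : ℕ)
    (h0 : ∀ j < len, 0 ≤ lev j ∧ lev j ≤ H)
    (hN : ∀ h : ℤ, ((Finset.range len).filter (fun j => lev j = h)).card ≤ N) :
    ∑ j ∈ Finset.range len, (k : ℚ) ^ (lev j) ≤ 2 * N * (k : ℚ) ^ H := by
  have h1 : ∑ j ∈ Finset.range len, (k : ℚ) ^ (lev j) =
      ∑ h ∈ Finset.range (H + 1), ∑ j ∈ (Finset.range len).filter (fun j => (lev j).toNat = h),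
        (k : ℚ) ^ (lev j) := by
    refine (Finset.sum_fiberwise_of_maps_to ?_ _).symm
    intro j hj
    have := h0 j (Finset.mem_range.1 hj)
    rw [Finset.mem_range]
    omega
  rw [h1]
  calc ∑ h ∈ Finset.range (H + 1), ∑ j ∈ (Finset.range len).filter (fun j => (lev j).toNat = h),
        (k : ℚ) ^ (lev j) ≤ ∑ h ∈ Finset.range (H + 1), (N : ℚ) * (k : ℚ) ^ h := by
        refine Finset.sum_le_sum fun h _ => ?_
        have h2 : ∑ j ∈ (Finset.range len).filter (fun j => (lev j).toNat = h), (k : ℚ) ^ (lev j) =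
            ∑ j ∈ (Finset.range len).filter (fun j => (lev j).toNat = h), (k : ℚ) ^ h := by
          refine Finset.sum_congr rfl fun j hj => ?_
          rw [Finset.mem_filter, Finset.mem_range] at hj
          have h3 := h0 j hj.1
          have h4 : lev j = (h : ℤ) := by omega
          rw [h4, zpow_natCast]
        rw [h2, Finset.sum_const, nsmul_eq_mul]
        refine mul_le_mul_of_nonneg_right ?_ (by positivity)
        have h5 : ((Finset.range len).filter (fun j => (lev j).toNat = h)).card ≤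
            ((Finset.range len).filter (fun j => lev j = (h : ℤ))).card := by
          refine Finset.card_le_card ?_
          intro j hj
          rw [Finset.mem_filter, Finset.mem_range] at hj ⊢
          have h3 := h0 j hj.1
          exact ⟨hj.1, by omega⟩
        exact_mod_cast h5.trans (hN h)
    _ = N * ∑ h ∈ Finset.range (H + 1), (k : ℚ) ^ h := by rw [Finset.mul_sum]
    _ ≤ N * (2 * (k : ℚ) ^ H) := mul_le_mul_of_nonneg_left (geom_le hk H) (by positivity)
    _ = 2 * N * (k : ℚ) ^ H := by ring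

section model

variable {k : ℕ} {G : Type} [Group G] {μ : Model k G} {S : Set G} {M : ℕ}

/-- an integer over `k^I` -/
def Den (k I : ℕ) (q : ℚ) : Prop := ∃ n : ℤ, q = n / (k : ℚ) ^ I

theorem Den.zero (k I : ℕ) : Den k I 0 := ⟨0, by simp⟩

theorem Den.add {k I : ℕ} {p q : ℚ} (hp : Den k I p) (hq : Den k I q) : Den k I (p + q) := by
  obtain ⟨a, rfl⟩ := hp
  obtain ⟨b, rfl⟩ := hq
  exact ⟨a + b, by push_cast; ring⟩

theorem Den.neg {k I : ℕ} {p : ℚ} (hp : Den k I p) : Den k I (-p) := by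
  obtain ⟨a, rfl⟩ := hp
  exact ⟨-a, by push_cast; ring⟩

theorem Den.sum {k I : ℕ} (s : Finset ℕ) (f : ℕ → ℚ) (h : ∀ i ∈ s, Den k I (f i)) :
    Den k I (∑ i ∈ s, f i) := by
  classical
  induction s using Finset.induction_on with
  | empty => simpa using Den.zero k I
  | insert a s ha ih =>
    rw [Finset.sum_insert ha]
    exact (h a (Finset.mem_insert_self a s)).add (ih fun i hi => h i (Finset.mem_insert_of_mem hi))

theorem Den.mul_zpow {k I : ℕ} {p : ℚ} (hp : Den k I p) {e : ℤ} (he : 0 ≤ e) :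
    Den k I ((k : ℚ) ^ e * p) := by
  obtain ⟨a, rfl⟩ := hp
  obtain ⟨n, rfl⟩ := Int.eq_ofNat_of_zero_le he
  exact ⟨k ^ n * a, by push_cast; rw [zpow_natCast]; ring⟩

theorem Den.int {k I : ℕ} (hk : 2 ≤ k) (n : ℤ) : Den k I (n : ℚ) := by
  have hk0 : (k : ℚ) ≠ 0 := by positivity
  exact ⟨n * k ^ I, by push_cast; field_simp⟩

/-- digit insertion -/
theorem digit (H : Hyp μ S M) : ∃ C : ℕ, ∀ (h : ℕ) (g : G) (i : ℕ), μ.m g = h → i < h →
    ∃ g', μ.m g' = h ∧ μ.x g' = μ.x g + (k : ℚ) ^ i ∧ wlen S g' ≤ wlen S g + C := by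
  classical
  have hk0 : (k : ℚ) ≠ 0 := by have := H.two_le; positivity
  have hd : ∀ t : ℕ, ∃ g, μ.x g = 1 / (k : ℚ) ^ t ∧ μ.m g = 0 := by
    intro t
    obtain ⟨g, h1, h2⟩ := μ.surj t 1 0
    exact ⟨g, by rw [h1]; norm_num, h2⟩
  choose d hdx hdm using hd
  obtain ⟨C, hC⟩ := exists_bound S (F := d '' {t | t < M}) ((Set.finite_lt_nat M).image d)
  refine ⟨C, fun h g i hg hi => ?_⟩
  obtain ⟨w, hw, hwp, hwl⟩ := exists_geod H.gen g
  have hex : ∃ j, (i : ℤ) ≤ μ.m (w.take j).prod := by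
    refine ⟨w.length, ?_⟩
    rw [List.take_length, hwp, hg]
    exact_mod_cast hi.le
  obtain ⟨j, hj, hmin⟩ : ∃ j, (i : ℤ) ≤ μ.m (w.take j).prod ∧ ∀ j' < j, μ.m (w.take j').prod < i := by
    refine ⟨Nat.find hex, Nat.find_spec hex, fun j' hj' => ?_⟩
    exact not_le.1 (Nat.find_min hex hj')
  obtain ⟨t, ht⟩ := Int.eq_ofNat_of_zero_le (sub_nonneg.2 hj)
  have htM : t < M := by
    rcases Nat.eq_zero_or_pos j with h0 | h0
    · subst h0
      simp [μ.m_one] at ht
      have := H.pos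
      omega
    · have h1 := H.step hw (j - 1)
      rw [Nat.sub_add_cancel h0] at h1
      have h2 := hmin (j - 1) (by omega)
      have h3 := le_abs_self (μ.m (w.take j).prod - μ.m (w.take (j - 1)).prod)
      omega
  have hlev : μ.m (w.take j).prod = i + t := by omega
  have hsplit : (w.take j).prod * (w.drop j).prod = g := by
    rw [← List.prod_append, List.take_append_drop, hwp]
  refine ⟨(w.take j).prod * d t * (w.drop j).prod, ?_, ?_, ?_⟩
  · rw [μ.m_mul, μ.m_mul, hdm, add_zero, ← μ.m_mul, hsplit, hg]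
  · rw [← hsplit, μ.x_mul, μ.x_mul, μ.x_mul, μ.m_mul, hdm, hdx, hlev, add_zero]
    have h1 : (k : ℚ) ^ ((i : ℤ) + (t : ℤ)) * (1 / (k : ℚ) ^ t) = (k : ℚ) ^ i := by
      rw [zpow_add₀ hk0, zpow_natCast, zpow_natCast]
      field_simp
    rw [h1]
    ring
  · have h1 := wlen_mul_le H.gen ((w.take j).prod * d t) (w.drop j).prod
    have h2 := wlen_mul_le H.gen (w.take j).prod (d t)
    have h3 := wlen_le (hw.take j)
    have h4 := wlen_le (hw.drop j)
    have h5 := hC (d t) ⟨t, htM, rfl⟩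
    have h6 : (w.take j).length + (w.drop j).length = w.length := by
      rw [← List.length_append, List.take_append_drop]
    omega

/-- insertion of several digits -/
theorem digits (H : Hyp μ S M) : ∃ C : ℕ, ∀ (h : ℕ) (g : G) (J : Finset ℕ), μ.m g = h →
    J ⊆ Finset.range h →
    ∃ g', μ.m g' = h ∧ μ.x g' = μ.x g + ∑ i ∈ J, (k : ℚ) ^ i ∧ wlen S g' ≤ wlen S g + C * J.card := by
  classical
  obtain ⟨C, hC⟩ := digit H
  refine ⟨C, fun h g J hg hJ => ?_⟩
  induction J using Finset.induction_on with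
  | empty => exact ⟨g, hg, by simp, by simp⟩
  | insert a s ha ih =>
    obtain ⟨g1, h1, h2, h3⟩ := ih ((Finset.subset_insert a s).trans hJ)
    obtain ⟨g2, h4, h5, h6⟩ := hC h g1 a h1 (Finset.mem_range.1 (hJ (Finset.mem_insert_self a s)))
    refine ⟨g2, h4, ?_, ?_⟩
    · rw [h5, h2, Finset.sum_insert ha]; ring
    · rw [Finset.card_insert_of_notMem ha, mul_add, mul_one]
      omega

/-- the rotated word -/
theorem rotate (H : Hyp μ S M) (κ : ConjClasses G) (hκ : μ.cm κ = 0) :
    ∃ w : List G, IsWord S w ∧ ConjClasses.mk w.prod = κ ∧ w.length = clen S κ ∧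
      w.length = wlen S w.prod ∧ μ.m w.prod = 0 ∧ ∀ j, 0 ≤ μ.m (w.take j).prod := by
  classical
  obtain ⟨g, hg, hgl⟩ := exists_clen S κ
  obtain ⟨w, hw, hwp, hwl⟩ := exists_geod H.gen g
  have hm : μ.m w.prod = 0 := by rw [hwp, ← μ.cm_mk g, hg, hκ]
  obtain ⟨i, hi, hmin⟩ : ∃ i, i ≤ w.length ∧ ∀ j ≤ w.length, μ.m (w.take i).prod ≤ μ.m (w.take j).prod := by
    obtain ⟨i, hi, hi2⟩ := Finset.exists_min_image (Finset.range (w.length + 1))
      (fun j => μ.m (w.take j).prod) ⟨0, by simp⟩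
    exact ⟨i, by rw [Finset.mem_range] at hi; omega, fun j hj => hi2 j (Finset.mem_range.2 (by omega))⟩
  have hmin' : ∀ j, μ.m (w.take i).prod ≤ μ.m (w.take j).prod := by
    intro j
    rcases le_or_gt j w.length with h | h
    · exact hmin j h
    · rw [List.take_of_length_le h.le]
      have := hmin w.length le_rfl
      rwa [List.take_length] at this
  have hmk : ConjClasses.mk (w.drop i ++ w.take i).prod = κ := by
    rw [← hg, ConjClasses.mk_eq_mk_iff_isConj, isConj_iff]
    refine ⟨(w.take i).prod, ?_⟩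
    have : (w.take i).prod * (w.drop i).prod = g := by
      rw [← List.prod_append, List.take_append_drop, hwp]
    rw [List.prod_append, ← this]
    group
  have hlen : (w.drop i ++ w.take i).length = w.length := by
    rw [List.length_append, List.length_drop, List.length_take]; omega
  have hisw : IsWord S (w.drop i ++ w.take i) := (hw.drop i).append (hw.take i)
  have hsum : μ.m (w.take i).prod + μ.m (w.drop i).prod = 0 := by
    rw [← μ.m_mul, ← List.prod_append, List.take_append_drop, hm]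
  refine ⟨w.drop i ++ w.take i, hisw, hmk, by rw [hlen, hwl, hgl], ?_, ?_, ?_⟩
  · refine le_antisymm ?_ (wlen_le hisw)
    rw [hlen, hwl, hgl]
    exact clen_le S hmk
  · rw [List.prod_append, μ.m_mul]; omega
  · intro j
    rw [List.take_append, List.prod_append, μ.m_mul]
    have hdt : ∀ a, μ.m ((w.drop i).take a).prod = μ.m (w.take (i + a)).prod - μ.m (w.take i).prod := by
      intro a
      have : w.take (i + a) = w.take i ++ (w.drop i).take a := by
        rw [List.take_add]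
      rw [this, List.prod_append, μ.m_mul]; ring
    rw [hdt]
    have h1 := hmin' (i + j)
    rcases le_or_gt j (w.drop i).length with h | h
    · have : j - (w.drop i).length = 0 := by omega
      rw [this]
      simp [μ.m_one]
      exact h1
    · have h2 : w.take (i + j) = w := by
        rw [List.length_drop] at h
        exact List.take_of_length_le (by omega)
      rw [h2, hm, List.take_take]
      have h3 := hmin' (min (j - (w.drop i).length) i)
      omega

/-- the decomposition of a class of exponent `0` -/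
theorem decomp (hB : S_B) (H : Hyp μ S M) : ∃ I R : ℕ, ∀ κ : ConjClasses G, μ.cm κ = 0 →
    ∃ (h : ℕ) (g1 g2 : G), μ.m g1 = h ∧ μ.m g2 = h ∧ ConjClasses.mk (g1 * g2⁻¹) = κ ∧
      wlen S g1 + wlen S g2 ≤ clen S κ ∧ |μ.x g1| ≤ R * (k : ℚ) ^ h ∧ |μ.x g2| ≤ R * (k : ℚ) ^ h ∧
      Den k I (μ.x g1) ∧ Den k I (μ.x g2) := by
  classical
  have hk := H.two_le
  have hk0 : (k : ℚ) ≠ 0 := by positivity
  obtain ⟨N, hN⟩ := hB k G μ S M H
  obtain ⟨I, X, hX, hletter⟩ := H.exists_letter_bound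
  refine ⟨I, X * (2 * N), fun κ hκ => ?_⟩
  obtain ⟨w, hw, hwk, hwc, hwg, hw0, hpos⟩ := rotate H κ hκ
  obtain ⟨i, hi, hmax⟩ : ∃ i, i ≤ w.length ∧ ∀ j ≤ w.length, μ.m (w.take j).prod ≤ μ.m (w.take i).prod := by
    obtain ⟨i, hi, hi2⟩ := Finset.exists_max_image (Finset.range (w.length + 1))
      (fun j => μ.m (w.take j).prod) ⟨0, by simp⟩
    exact ⟨i, by rw [Finset.mem_range] at hi; omega, fun j hj => hi2 j (Finset.mem_range.2 (by omega))⟩
  obtain ⟨h, hh⟩ := Int.eq_ofNat_of_zero_le (hpos i)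
  have hsum : μ.m (w.take i).prod + μ.m (w.drop i).prod = 0 := by
    rw [← μ.m_mul, ← List.prod_append, List.take_append_drop, hw0]
  have hlev : ∑ j ∈ Finset.range w.length, (k : ℚ) ^ (μ.m (w.take j).prod) ≤ 2 * N * (k : ℚ) ^ h := by
    refine sum_levels hk w.length (fun j => μ.m (w.take j).prod) h N (fun j hj => ⟨hpos j, ?_⟩)
      (hN w hw hwg)
    rw [← hh]
    exact hmax j hj.le
  have hgetD : ∀ j, |μ.x (w.getD j 1)| ≤ X ∧ Den k I (μ.x (w.getD j 1)) := by
    intro j
    by_cases hj : j < w.length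
    · rw [List.getD_eq_getElem w 1 hj]
      exact hletter _ (hw _ (List.getElem_mem hj))
    · rw [List.getD_eq_default _ _ (by omega), μ.x_one]
      exact ⟨by simp, Den.zero k I⟩
  -- first part
  have hx1 : μ.x (w.take i).prod =
      ∑ j ∈ Finset.range i, (k : ℚ) ^ μ.m (w.take j).prod * μ.x (w.getD j 1) := by
    rw [μ.x_prod hk, List.length_take, min_eq_left hi]
    refine Finset.sum_congr rfl fun j hj => ?_
    rw [Finset.mem_range] at hj
    rw [List.take_take, min_eq_left hj.le]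
    congr 2
    rw [List.getD_eq_getElem _ _ (by rw [List.length_take]; omega), List.getD_eq_getElem _ _ (by omega),
      List.getElem_take]
  have hx : μ.x w.prod =
      ∑ j ∈ Finset.range w.length, (k : ℚ) ^ μ.m (w.take j).prod * μ.x (w.getD j 1) := μ.x_prod hk w
  have hx2 : μ.x ((w.drop i).prod)⁻¹ = μ.x (w.take i).prod - μ.x w.prod := by
    have h1 : w.prod = (w.take i).prod * (w.drop i).prod := by
      rw [← List.prod_append, List.take_append_drop]
    rw [μ.x_inv, h1, μ.x_mul]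
    have h2 : -μ.m (w.drop i).prod = μ.m (w.take i).prod := by omega
    rw [h2]; ring
  have hx2' : μ.x ((w.drop i).prod)⁻¹ =
      -∑ j ∈ Finset.range w.length \ Finset.range i, (k : ℚ) ^ μ.m (w.take j).prod * μ.x (w.getD j 1) := by
    rw [hx2, hx1, hx]
    have := Finset.sum_sdiff (Finset.range_subset_range.2 hi)
      (f := fun j => (k : ℚ) ^ μ.m (w.take j).prod * μ.x (w.getD j 1))
    linarith
  have hbound : ∀ s : Finset ℕ, s ⊆ Finset.range w.length →
      |∑ j ∈ s, (k : ℚ) ^ μ.m (w.take j).prod * μ.x (w.getD j 1)| ≤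
        ((X * (2 * N) : ℕ) : ℚ) * (k : ℚ) ^ h := by
    intro s hs
    calc |∑ j ∈ s, (k : ℚ) ^ μ.m (w.take j).prod * μ.x (w.getD j 1)|
        ≤ ∑ j ∈ s, |(k : ℚ) ^ μ.m (w.take j).prod * μ.x (w.getD j 1)| := Finset.abs_sum_le_sum_abs _ _
      _ ≤ ∑ j ∈ s, (X : ℚ) * (k : ℚ) ^ μ.m (w.take j).prod := by
          refine Finset.sum_le_sum fun j _ => ?_
          rw [abs_mul, abs_of_nonneg (show (0 : ℚ) ≤ (k : ℚ) ^ μ.m (w.take j).prod by positivity), mul_comm]
          exact mul_le_mul_of_nonneg_right (hgetD j).1 (by positivity)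
      _ ≤ ∑ j ∈ Finset.range w.length, (X : ℚ) * (k : ℚ) ^ μ.m (w.take j).prod :=
          Finset.sum_le_sum_of_subset_of_nonneg hs fun _ _ _ => by positivity
      _ = X * ∑ j ∈ Finset.range w.length, (k : ℚ) ^ μ.m (w.take j).prod := by rw [Finset.mul_sum]
      _ ≤ X * (2 * N * (k : ℚ) ^ h) := mul_le_mul_of_nonneg_left hlev (by positivity)
      _ = ((X * (2 * N) : ℕ) : ℚ) * (k : ℚ) ^ h := by push_cast; ring
  have hdenS : ∀ s : Finset ℕ, Den k I (∑ j ∈ s, (k : ℚ) ^ μ.m (w.take j).prod * μ.x (w.getD j 1)) :=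
    fun s => Den.sum _ _ fun j _ => (hgetD j).2.mul_zpow (hpos j)
  refine ⟨h, (w.take i).prod, ((w.drop i).prod)⁻¹, hh, by rw [μ.m_inv]; omega, ?_, ?_, ?_, ?_, ?_, ?_⟩
  · rw [inv_inv, ← List.prod_append, List.take_append_drop, hwk]
  · rw [wlen_inv H.gen, ← hwc]
    have h1 := wlen_le (hw.take i)
    have h2 := wlen_le (hw.drop i)
    have h6 : (w.take i).length + (w.drop i).length = w.length := by
      rw [← List.length_append, List.take_append_drop]
    omega
  · rw [hx1]; exact hbound _ (Finset.range_subset_range.2 hi)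
  · rw [hx2', abs_neg]; exact hbound _ Finset.sdiff_subset
  · rw [hx1]; exact hdenS _
  · rw [hx2']; exact (hdenS _).neg

end model

end Pool.Agent.Q177.BSG
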